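import Pool.Agent.H434R2.ElevenG

set_option autoImplicit false

/-!
MP_d8ed36_nt, Q2.  For every odd prime `p` and every `a ≥ 1`,
`(1/p^a) ∑_{k<p^a} (11k+3)/64^k C(2k,k)^2 C(3k,k) ≡ 3 + (7/2) p^3 B_{p-3} (mod p^4)`.
-/

namespace Pool.Agent.Results.MP_d8ed36_nt.RamanujanElevenModP4

open Finset Pool.Agent.H434R2

/-- `u ≡ v (mod p^n)` for rational numbers: `u - v = p^n r` with `r` a rational number whose
denominator is prime to `p`. -/
def RatCong (p n : ℕ) (u v : ℚ) : Prop := ∃ r : ℚ, Nat.Coprime r.den p ∧ u - v = (p : ℚ) ^ n * r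

/-- `T(p,a) = (1/p^a) ∑_{k=0}^{p^a-1} (11k+3)/64^k * C(2k,k)^2 * C(3k,k)`. -/
def T (p a : ℕ) : ℚ :=
  (1 / (p : ℚ) ^ a) * ∑ k ∈ range (p ^ a),
    (11 * (k : ℚ) + 3) / 64 ^ k * ((2 * k).choose k : ℚ) ^ 2 * ((3 * k).choose k : ℚ)

section

variable {p : ℕ} [hp : Fact p.Prime]

lemma hv_of {n a : ℕ} (hn : 2 * n + 1 = p ^ a) : ∀ i < 2 * n, PO p 1 (vv n i) := by
  intro i hi
  unfold vv
  have e : (2 * (n : ℚ) + 1) / (i + 1) = (p : ℚ) ^ a / ((i + 1 : ℕ) : ℚ) := by
    have : (2 * (n : ℚ) + 1) = (p : ℚ) ^ a := by exact_mod_cast hn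
    rw [this]; push_cast; rfl
  rw [e]
  apply PO_ppow_div (s := a) (by ring)
  intro hd
  have := Nat.le_of_dvd (by omega) hd
  omega

/-- the cubic sums for `p^a` and for `p` agree modulo `p^4` -/
lemma PP3_reduce {n n' a : ℕ} (hn : 2 * n + 1 = p ^ (a + 1)) (hn' : 2 * n' + 1 = p) :
    PO p 4 (PP n 3 - PP n' 3) := by
  set q := p ^ a with hq
  have hq0 : 0 < q := by rw [hq]; exact pow_pos hp.out.pos _
  have hN : 2 * n + 1 = p * q := by rw [hn, pow_succ, mul_comm]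
  have hNQ : (2 * (n : ℚ) + 1) = (p : ℚ) * q := by exact_mod_cast hN
  have hpQ : (2 * (n' : ℚ) + 1) = (p : ℚ) := by exact_mod_cast hn'
  have himg : (range n).filter (fun i => q ∣ i + 1) = (range n').image (fun j => q * (j + 1) - 1) := by
    ext i
    simp only [mem_filter, mem_range, mem_image]
    constructor
    · rintro ⟨hi, t, ht⟩
      have ht0 : t ≠ 0 := by rintro rfl; omega
      refine ⟨t - 1, ?_, ?_⟩
      · by_contra hc
        have h1 : n' + 1 ≤ t := by omega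
        have h2 : q * (n' + 1) ≤ q * t := Nat.mul_le_mul_left _ h1
        have h3 : p * q = 2 * (q * n') + q := by rw [← hn']; ring
        have h4 : q * (n' + 1) = q * n' + q := by ring
        omega
      · have : t - 1 + 1 = t := by omega
        rw [this, ← ht]; omega
    · rintro ⟨j, hj, rfl⟩
      have h0 : 0 < q * (j + 1) := by positivity
      have e1 : q * (j + 1) - 1 + 1 = q * (j + 1) := by omega
      refine ⟨?_, ?_⟩
      · have h2 : q * (j + 1) ≤ q * n' := Nat.mul_le_mul_left _ hj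
        have h3 : p * q = 2 * (q * n') + q := by rw [← hn']; ring
        omega
      · rw [e1]; exact dvd_mul_right _ _
  have hinj : Set.InjOn (fun j => q * (j + 1) - 1) (range n' : Finset ℕ) := by
    intro x _ y _ hxy
    have hxy' : q * (x + 1) - 1 = q * (y + 1) - 1 := hxy
    have h1 : 0 < q * (x + 1) := by positivity
    have h2 : 0 < q * (y + 1) := by positivity
    have h3 : q * (x + 1) = q * (y + 1) := by omega
    have := Nat.eq_of_mul_eq_mul_left hq0 h3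
    omega
  have e1 : PP n' 3 = ∑ i ∈ (range n).filter (fun i => q ∣ i + 1), vv n i ^ 3 := by
    rw [himg, sum_image hinj]
    unfold PP
    apply sum_congr rfl
    intro j _
    congr 1
    unfold vv
    have h1 : 0 < q * (j + 1) := by positivity
    have h2 : (((q * (j + 1) - 1 : ℕ) : ℚ) + 1) = q * (j + 1) := by
      rw [Nat.cast_sub (by omega)]; push_cast; ring
    rw [h2, hNQ, hpQ]
    have h3 : (q : ℚ) ≠ 0 := by exact_mod_cast hq0.ne'
    have h4 : ((j : ℚ) + 1) ≠ 0 := by positivity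
    field_simp
  have e2 : PP n 3 - PP n' 3 = ∑ i ∈ (range n).filter (fun i => ¬ q ∣ i + 1), vv n i ^ 3 := by
    rw [e1]
    unfold PP
    rw [← sum_filter_add_sum_filter_not (range n) (fun i => q ∣ i + 1) (fun i => vv n i ^ 3)]
    ring
  rw [e2]
  apply PO.sum
  intro i hi
  rw [mem_filter] at hi
  have h1 : PO p 2 (vv n i) := by
    unfold vv
    have e : (2 * (n : ℚ) + 1) / (i + 1) = (p : ℚ) ^ (a + 1) / ((i + 1 : ℕ) : ℚ) := by
      have : (2 * (n : ℚ) + 1) = (p : ℚ) ^ (a + 1) := by exact_mod_cast hn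
      rw [this]; push_cast; rfl
    rw [e]
    exact PO_ppow_div (s := a) (by ring) hi.2
  exact (h1.pow 3).mono (by norm_num)

lemma SS_p {n' : ℕ} (hn' : 2 * n' + 1 = p) (h2 : p ≠ 2) : PO p 4 (SS n' - (p : ℚ) ^ 3 * bernoulli (p - 3)) := by
  have hpQ : (2 * (n' : ℚ) + 1) = (p : ℚ) := by exact_mod_cast hn'
  have h := double_harmonic (p := p) h2
  have e : SS n' = (p : ℚ) ^ 3 * ∑ b ∈ range (p - 1), (1 / ((b : ℚ) + 1) ^ 2) * ∑ a ∈ range b, 1 / ((a : ℚ) + 1) := by
    unfold SS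
    have hr : 2 * n' = p - 1 := by omega
    rw [hr, mul_sum]
    apply sum_congr rfl
    intro b _
    have : ∑ a ∈ range b, vv n' a = (p : ℚ) * ∑ a ∈ range b, 1 / ((a : ℚ) + 1) := by
      rw [mul_sum]
      apply sum_congr rfl
      intro a _
      unfold vv
      rw [hpQ]; ring
    rw [this]
    unfold vv
    rw [hpQ, div_pow]
    ring
  rw [e, ← mul_sub]
  exact (PO.ppow (p := p) 3).mul h

end

theorem result (p : ℕ) (hp : p.Prime) (hodd : Odd p) (a : ℕ) (ha : 1 ≤ a) :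
    RatCong p 4 (T p a) (3 + 7 / 2 * (p : ℚ) ^ 3 * bernoulli (p - 3)) := by
  have : Fact p.Prime := ⟨hp⟩
  have h2 : p ≠ 2 := by
    rintro rfl
    exact absurd hodd (by decide)
  obtain ⟨n, hn⟩ : ∃ n, 2 * n + 1 = p ^ a := by
    obtain ⟨k, hk⟩ := hodd.pow (n := a)
    exact ⟨k, hk.symm⟩
  obtain ⟨n', hn'⟩ : ∃ n', 2 * n' + 1 = p := by
    obtain ⟨k, hk⟩ := hodd
    exact ⟨k, hk.symm⟩
  obtain ⟨b, rfl⟩ : ∃ b, a = b + 1 := ⟨a - 1, by omega⟩
  have hv := hv_of (p := p) hn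
  have hv' := hv_of (p := p) (n := n') (a := 1) (by rw [hn', pow_one])
  have m1 := TT_mod hv h2
  have m2 := SS_P3 hv h2
  have m3 := PP3_reduce (p := p) hn hn'
  have m4 := SS_P3 hv' h2
  have m5 := SS_p (p := p) hn' h2
  have eT : T p (b + 1) = TT n := by
    unfold T TT
    have hNQ : (2 * (n : ℚ) + 1) = (p : ℚ) ^ (b + 1) := by exact_mod_cast hn
    rw [hNQ, hn]
    congr 1
    apply sum_congr rfl
    intro k _
    unfold Eleven.tt
    ring
  have key : T p (b + 1) - (3 + 7 / 2 * (p : ℚ) ^ 3 * bernoulli (p - 3)) =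
      (TT n - (3 + (7 / 2) * SS n)) + 7 * (1 / 2) * ((SS n + (1 / 2) * PP n 3) - (1 / 2) * (PP n 3 - PP n' 3)
        - (SS n' + (1 / 2) * PP n' 3) + (SS n' - (p : ℚ) ^ 3 * bernoulli (p - 3))) := by
    rw [eT]; ring
  have hfin : PO p 4 (T p (b + 1) - (3 + 7 / 2 * (p : ℚ) ^ 3 * bernoulli (p - 3))) := by
    rw [key]
    have hh := PO.half (p := p) h2
    exact m1.add (((PO.of_ofNat 7).mul0 hh).mul0 (((m2.sub (hh.mul0 m3)).sub m4).add m5))
  exact PO.exists_rep hfin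

end Pool.Agent.Results.MP_d8ed36_nt.RamanujanElevenModP4
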